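import Mathlib

set_option autoImplicit false

namespace Pool.Agent.Results.MP_d14146_co.SIGInL1

open Finset

/-- `d` is a metric on the set `V`. -/
structure IsMetricOn {V : Type*} (d : V → V → ℝ) : Prop where
  nonneg : ∀ i j, 0 ≤ d i j
  eq_zero_iff : ∀ i j, d i j = 0 ↔ i = j
  symm : ∀ i j, d i j = d j i
  triangle : ∀ i j k, d i k ≤ d i j + d j k

/-- The radius of influence `r_i = min_{j ≠ i} d(i,j)`. -/
noncomputable def radius {V : Type*} (d : V → V → ℝ) (i : V) : ℝ :=
  ⨅ j : {j : V // j ≠ i}, d i j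

/-- `d` is a SIG-metric for the graph `G`. -/
def IsSIGMetric {V : Type*} (G : SimpleGraph V) (d : V → V → ℝ) : Prop :=
  IsMetricOn d ∧ ∀ i j, i ≠ j →
    (G.Adj i j → d i j < radius d i + radius d j) ∧
    (¬ G.Adj i j → radius d i + radius d j ≤ d i j)

/-- `d` is realised by points of some `(ℝ^m, d_1)`, `m ≥ 1`. -/
def IsL1Embeddable {V : Type*} (d : V → V → ℝ) : Prop :=
  ∃ m : ℕ, 1 ≤ m ∧ ∃ X : V → Fin m → ℝ, ∀ i j, ∑ k, |X i k - X j k| = d i j

section construction

variable {V : Type*} (G : SimpleGraph V) (κ : V → ℕ) (ρ : V) (p : V → V)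

/-- ancestor-or-self relation (the root excluded) -/
def anc (v x : V) : Prop := x ≠ ρ ∧ ∃ k : ℕ, p^[k] v = x

open Classical in
/-- indicator of the ancestor relation -/
noncomputable def a (v x : V) : ℝ := if anc ρ p v x then 1 else 0

open Classical in
/-- weight of the cut attached to a non-tree edge -/
noncomputable def W (M : ℝ) (x w : V) : ℝ :=
  if G.Adj x w ∧ κ (p w) < κ x ∧ κ x < κ w then M ^ κ x else 0

/-- the distance -/
noncomputable def dd [Fintype V] (M : ℝ) (u v : V) : ℝ :=
  ∑ x, 2 * M ^ κ x * |a ρ p u x - a ρ p v x| +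
  ∑ x, ∑ w, W G κ p M x w * |(a ρ p u x + a ρ p u w) - (a ρ p v x + a ρ p v w)|

/-- the radius of a non-root vertex -/
noncomputable def rr [Fintype V] (M : ℝ) (x : V) : ℝ :=
  2 * M ^ κ x + ∑ w, (W G κ p M x w + W G κ p M w x)

variable {G κ ρ p}

lemma a_mem (v x : V) : a ρ p v x = 0 ∨ a ρ p v x = 1 := by
  unfold a; split_ifs <;> simp

lemma a_eq_one {v x : V} (h : anc ρ p v x) : a ρ p v x = 1 := by
  unfold a; simp [h]

lemma a_eq_zero {v x : V} (h : ¬ anc ρ p v x) : a ρ p v x = 0 := by
  unfold a; simp [h]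

lemma W_nonneg {M : ℝ} (hM : 1 ≤ M) (x w : V) : 0 ≤ W G κ p M x w := by
  unfold W; split_ifs
  · positivity
  · exact le_rfl

lemma W_add_le {M : ℝ} (hM : 1 ≤ M) (x w : V) :
    W G κ p M x w + W G κ p M w x ≤ M ^ κ x := by
  unfold W
  by_cases h1 : G.Adj x w ∧ κ (p w) < κ x ∧ κ x < κ w
  · have h2 : ¬ (G.Adj w x ∧ κ (p x) < κ w ∧ κ w < κ x) := by
      rintro ⟨_, _, h⟩
      exact absurd h (not_lt.mpr h1.2.2.le)
    simp [h1, h2]
  · rw [if_neg h1]
    split_ifs with h2
    · rw [zero_add]
      exact pow_le_pow_right₀ hM h2.2.2.le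
    · rw [zero_add]
      positivity

/-- structural hypotheses on the spanning tree -/
structure Tree (G : SimpleGraph V) (κ : V → ℕ) (ρ : V) (p : V → V) : Prop where
  inj : Function.Injective κ
  root : ∀ v, v ≠ ρ → κ ρ < κ v
  proot : p ρ = ρ
  padj : ∀ v, v ≠ ρ → G.Adj v (p v)
  plt : ∀ v, v ≠ ρ → κ (p v) < κ v
  pmin : ∀ v, v ≠ ρ → ∀ u, G.Adj v u → κ (p v) ≤ κ u

lemma sum_swap [Fintype V] (f g : V → V → ℝ) :
    ∑ x, ∑ w, (f x w + g x w) = ∑ x, ∑ w, (f x w + g w x) := by
  simp_rw [sum_add_distrib]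
  congr 1
  exact sum_comm

variable (T : Tree G κ ρ p)

include T

lemma Tree.iter_le (k : ℕ) (v : V) : κ (p^[k] v) ≤ κ v := by
  induction k generalizing v with
  | zero => simp
  | succ k ih =>
    rw [Function.iterate_succ_apply]
    refine (ih (p v)).trans ?_
    by_cases hv : v = ρ
    · rw [hv, T.proot]
    · exact (T.plt v hv).le

lemma Tree.anc_le {v x : V} (h : anc ρ p v x) : κ x ≤ κ v := by
  obtain ⟨_, k, rfl⟩ := h
  exact T.iter_le k v

omit T in
lemma anc_self {v : V} (h : v ≠ ρ) : anc ρ p v v := ⟨h, 0, rfl⟩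

omit T in
lemma anc_parent {v x : V} (h : anc ρ p v x) (hx : x ≠ v) : anc ρ p (p v) x := by
  obtain ⟨h1, k, hk⟩ := h
  cases k with
  | zero => exact absurd hk.symm hx
  | succ k => exact ⟨h1, k, by rwa [Function.iterate_succ_apply] at hk⟩

omit T in
lemma anc_of_parent {v x : V} (h : anc ρ p (p v) x) : anc ρ p v x := by
  obtain ⟨h1, k, hk⟩ := h
  exact ⟨h1, k + 1, by rwa [Function.iterate_succ_apply]⟩

lemma Tree.anc_anc {v x w : V} (hx : anc ρ p v x) (hw : anc ρ p v w) (h : κ x < κ w) :
    κ x ≤ κ (p w) := by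
  obtain ⟨_, l, rfl⟩ := hx
  obtain ⟨_, k, rfl⟩ := hw
  have hkl : k < l := by
    by_contra hc
    push Not at hc
    obtain ⟨j, rfl⟩ := Nat.exists_eq_add_of_le hc
    rw [add_comm, Function.iterate_add_apply] at h
    exact absurd h (not_lt.mpr (T.iter_le j _))
  obtain ⟨j, rfl⟩ := Nat.exists_eq_add_of_lt hkl
  have : p^[k + j + 1] v = p^[j] (p (p^[k] v)) := by
    rw [← Function.iterate_succ_apply' p k v, ← Function.iterate_add_apply]
    have e : k + j + 1 = j + k.succ := by omega
    rw [e]
  rw [this]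
  exact T.iter_le j _

lemma Tree.W_anc {M : ℝ} {v x w : V} (hx : anc ρ p v x) (hw : anc ρ p v w) :
    W G κ p M x w = 0 := by
  unfold W
  rw [if_neg]
  rintro ⟨_, h1, h2⟩
  exact absurd h1 (not_lt.mpr (T.anc_anc hx hw h2))

omit T in
lemma W_not_adj {M : ℝ} {x w : V} (h : ¬ G.Adj x w) : W G κ p M x w = 0 := by
  unfold W
  rw [if_neg]
  rintro ⟨h1, _⟩
  exact h h1

omit T in
lemma W_self {M : ℝ} (x : V) : W G κ p M x x = 0 := W_not_adj (G.irrefl)

variable [Fintype V]

omit T in
/-- the key lower bound -/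
lemma lower {M : ℝ} (hM : 1 ≤ M) (u v : V) (P : Finset V) (hP : P.card ≤ 2)
    (hW : ∀ x ∈ P, ∀ w ∈ P, W G κ p M x w = 0) :
    ∑ x ∈ P, rr G κ p M x * |a ρ p u x - a ρ p v x| ≤ dd G κ ρ p M u v := by
  classical
  set D : V → ℝ := fun x => |a ρ p u x - a ρ p v x| with hD
  set π : V → ℝ := fun x => if x ∈ P then 1 else 0 with hπ
  have hD0 : ∀ x, 0 ≤ D x := fun x => abs_nonneg _
  have hF : ∀ x w, W G κ p M x w * (π x * (D x - D w) + π w * (D w - D x)) ≤
      W G κ p M x w * |(a ρ p u x + a ρ p u w) - (a ρ p v x + a ρ p v w)| := by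
    intro x w
    by_cases h0 : W G κ p M x w = 0
    · rw [h0]; simp
    · refine mul_le_mul_of_nonneg_left ?_ (W_nonneg hM x w)
      have e : (a ρ p u x + a ρ p u w) - (a ρ p v x + a ρ p v w) =
        (a ρ p u x - a ρ p v x) - (-(a ρ p u w - a ρ p v w)) := by ring
      have h1 : D x - D w ≤ |(a ρ p u x + a ρ p u w) - (a ρ p v x + a ρ p v w)| := by
        rw [e]
        have := abs_sub_abs_le_abs_sub (a ρ p u x - a ρ p v x) (-(a ρ p u w - a ρ p v w))
        rwa [abs_neg] at this
      have h2 : D w - D x ≤ |(a ρ p u x + a ρ p u w) - (a ρ p v x + a ρ p v w)| := by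
        rw [e, abs_sub_comm]
        have := abs_sub_abs_le_abs_sub (-(a ρ p u w - a ρ p v w)) (a ρ p u x - a ρ p v x)
        rwa [abs_neg] at this
      have h3 : 0 ≤ |(a ρ p u x + a ρ p u w) - (a ρ p v x + a ρ p v w)| := abs_nonneg _
      by_cases hx : x ∈ P
      · by_cases hw : w ∈ P
        · exact absurd (hW x hx w hw) h0
        · simp only [hπ, hx, hw, if_true, if_false]; linarith
      · by_cases hw : w ∈ P
        · simp only [hπ, hx, hw, if_true, if_false]; linarith
        · simp only [hπ, hx, hw, if_false]; linarith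
  have hsum : ∑ x, ∑ w, W G κ p M x w * (π x * (D x - D w) + π w * (D w - D x)) ≤
      ∑ x, ∑ w, W G κ p M x w * |(a ρ p u x + a ρ p u w) - (a ρ p v x + a ρ p v w)| :=
    sum_le_sum fun x _ => sum_le_sum fun w _ => hF x w
  have hre : ∑ x, ∑ w, W G κ p M x w * (π x * (D x - D w) + π w * (D w - D x)) =
      ∑ x, (π x * D x * ∑ w, (W G κ p M x w + W G κ p M w x) -
        D x * ∑ w, π w * (W G κ p M x w + W G κ p M w x)) := by
    have e1 : ∀ x w, W G κ p M x w * (π x * (D x - D w) + π w * (D w - D x)) =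
        (π x * D x * W G κ p M x w - D x * (π w * W G κ p M x w)) +
        (π w * D w * W G κ p M x w - D w * (π x * W G κ p M x w)) := by
      intro x w; ring
    simp_rw [e1]
    rw [sum_swap]
    refine sum_congr rfl fun x _ => ?_
    rw [mul_sum, mul_sum, ← sum_sub_distrib]
    refine sum_congr rfl fun w _ => ?_
    ring
  have hcl : ∀ x, ∑ w, π w * (W G κ p M x w + W G κ p M w x) ≤ (1 - π x) * (2 * M ^ κ x) := by
    intro x
    have e : ∑ w, π w * (W G κ p M x w + W G κ p M w x) =
        ∑ w ∈ P, (W G κ p M x w + W G κ p M w x) := by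
      simp only [hπ, ite_mul, one_mul, zero_mul]
      rw [← sum_filter]
      congr 1
      ext w; simp
    rw [e]
    by_cases hx : x ∈ P
    · simp only [hπ, hx, if_true, sub_self, zero_mul]
      refine le_of_eq (sum_eq_zero fun w hw => ?_)
      rw [hW x hx w hw, hW w hw x hx, add_zero]
    · simp only [hπ, hx, if_false, sub_zero, one_mul]
      calc ∑ w ∈ P, (W G κ p M x w + W G κ p M w x) ≤ ∑ w ∈ P, M ^ κ x :=
            sum_le_sum fun w _ => W_add_le hM x w
        _ = P.card * M ^ κ x := by rw [sum_const, nsmul_eq_mul]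
        _ ≤ 2 * M ^ κ x := by
            refine mul_le_mul_of_nonneg_right ?_ (by positivity)
            exact_mod_cast hP
  have hLHS : ∑ x ∈ P, rr G κ p M x * |a ρ p u x - a ρ p v x| =
      ∑ x, π x * (rr G κ p M x * D x) := by
    simp only [hπ, ite_mul, one_mul, zero_mul]
    rw [← sum_filter]
    refine (sum_congr ?_ fun x _ => rfl)
    ext w; simp
  rw [hLHS]
  unfold dd
  refine le_trans ?_ (add_le_add_right hsum _)
  rw [hre, ← sum_add_distrib]
  refine sum_le_sum fun x _ => ?_
  have h1 := mul_le_mul_of_nonneg_left (hcl x) (hD0 x)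
  unfold rr
  have h2 : π x = 0 ∨ π x = 1 := by
    simp only [hπ]; split_ifs <;> simp
  have h3 : (0:ℝ) ≤ M ^ κ x := by positivity
  change _ ≤ 2 * M ^ κ x * D x + _
  nlinarith [h1]

omit T in
lemma upper {M : ℝ} (hM : 1 ≤ M) (u v : V) :
    dd G κ ρ p M u v ≤ ∑ x, rr G κ p M x * |a ρ p u x - a ρ p v x| := by
  set D : V → ℝ := fun x => |a ρ p u x - a ρ p v x| with hD
  have hF : ∀ x w, W G κ p M x w * |(a ρ p u x + a ρ p u w) - (a ρ p v x + a ρ p v w)| ≤
      W G κ p M x w * (D x + D w) := by
    intro x w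
    refine mul_le_mul_of_nonneg_left ?_ (W_nonneg hM x w)
    have e : (a ρ p u x + a ρ p u w) - (a ρ p v x + a ρ p v w) =
        (a ρ p u x - a ρ p v x) + (a ρ p u w - a ρ p v w) := by ring
    rw [e]
    exact abs_add_le _ _
  have hsum : ∑ x, ∑ w, W G κ p M x w * |(a ρ p u x + a ρ p u w) - (a ρ p v x + a ρ p v w)| ≤
      ∑ x, ∑ w, W G κ p M x w * (D x + D w) :=
    sum_le_sum fun x _ => sum_le_sum fun w _ => hF x w
  have hre : ∑ x, ∑ w, W G κ p M x w * (D x + D w) =
      ∑ x, D x * ∑ w, (W G κ p M x w + W G κ p M w x) := by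
    simp_rw [mul_add]
    rw [sum_swap]
    refine sum_congr rfl fun x _ => ?_
    rw [mul_sum]
    refine sum_congr rfl fun w _ => ?_
    ring
  unfold dd
  refine (add_le_add_right hsum _).trans ?_
  rw [hre, ← sum_add_distrib]
  refine le_of_eq (sum_congr rfl fun x _ => ?_)
  unfold rr
  change 2 * M ^ κ x * D x + _ = _
  ring

omit T in
lemma upper' {M : ℝ} (hM : 1 ≤ M) (u v : V) (huv : u ≠ v)
    (h1 : a ρ p u u = 1) (h2 : a ρ p u v = 0) (h3 : a ρ p v u = 0) (h4 : a ρ p v v = 1) :
    dd G κ ρ p M u v ≤ ∑ x, rr G κ p M x * |a ρ p u x - a ρ p v x| - 2 * W G κ p M u v := by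
  classical
  set D : V → ℝ := fun x => |a ρ p u x - a ρ p v x| with hD
  have hF : ∀ x w, W G κ p M x w * |(a ρ p u x + a ρ p u w) - (a ρ p v x + a ρ p v w)| ≤
      W G κ p M x w * (D x + D w) -
        (if x = u then (if w = v then 2 * W G κ p M u v else 0) else 0) := by
    intro x w
    have e : (a ρ p u x + a ρ p u w) - (a ρ p v x + a ρ p v w) =
        (a ρ p u x - a ρ p v x) + (a ρ p u w - a ρ p v w) := by ring
    by_cases hx : x = u
    · by_cases hw : w = v
      · subst hx hw
        simp only [if_true, hD, h1, h2, h3, h4]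
        norm_num
        linarith [W_nonneg (G := G) (κ := κ) (p := p) hM x w]
      · simp only [hw, if_false, ite_self, sub_zero]
        refine mul_le_mul_of_nonneg_left ?_ (W_nonneg hM _ w)
        rw [e]
        exact abs_add_le _ _
    · simp only [hx, if_false, sub_zero]
      refine mul_le_mul_of_nonneg_left ?_ (W_nonneg hM x w)
      rw [e]
      exact abs_add_le _ _
  have hsum := sum_le_sum fun x (_ : x ∈ (univ : Finset V)) =>
    sum_le_sum fun w (_ : w ∈ (univ : Finset V)) => hF x w
  have hre : ∑ x, ∑ w, (W G κ p M x w * (D x + D w) -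
        (if x = u then (if w = v then 2 * W G κ p M u v else 0) else 0)) =
      ∑ x, D x * ∑ w, (W G κ p M x w + W G κ p M w x) - 2 * W G κ p M u v := by
    simp_rw [sum_sub_distrib]
    congr 1
    · simp_rw [mul_add]
      rw [sum_swap]
      refine sum_congr rfl fun x _ => ?_
      rw [mul_sum]
      refine sum_congr rfl fun w _ => ?_
      ring
    · simp
  unfold dd
  refine (add_le_add_right hsum _).trans ?_
  rw [hre, ← add_sub_assoc, ← sum_add_distrib]
  refine le_of_eq ?_
  congr 1
  refine (sum_congr rfl fun x _ => ?_)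
  unfold rr
  change 2 * M ^ κ x * D x + _ = _
  ring

omit T in
lemma rr_le {M : ℝ} (hM : 1 ≤ M) (x : V) :
    rr G κ p M x ≤ (Fintype.card V + 2) * M ^ κ x := by
  unfold rr
  have : ∑ w, (W G κ p M x w + W G κ p M w x) ≤ Fintype.card V * M ^ κ x := by
    calc ∑ w, (W G κ p M x w + W G κ p M w x) ≤ ∑ w : V, M ^ κ x :=
          sum_le_sum fun w _ => W_add_le hM x w
      _ = Fintype.card V * M ^ κ x := by
          rw [sum_const, nsmul_eq_mul, card_univ]
  linarith

omit T in
lemma le_rr {M : ℝ} (hM : 1 ≤ M) (x : V) : 2 * M ^ κ x ≤ rr G κ p M x := by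
  unfold rr
  have : 0 ≤ ∑ w, (W G κ p M x w + W G κ p M w x) :=
    sum_nonneg fun w _ => add_nonneg (W_nonneg hM x w) (W_nonneg hM w x)
  linarith

omit T in
lemma rr_pos {M : ℝ} (hM : 1 ≤ M) (x : V) : 0 < rr G κ p M x := by
  have := le_rr (G := G) (p := p) (κ := κ) hM x
  have h : 0 < M ^ κ x := by positivity
  linarith

omit T in
lemma rr_mono {M : ℝ} (hM : M = Fintype.card V + 3) {x y : V} (h : κ x < κ y) :
    rr G κ p M x ≤ rr G κ p M y := by
  have hM1 : 1 ≤ M := by rw [hM]; linarith [(Nat.cast_nonneg (Fintype.card V) : (0:ℝ) ≤ _)]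
  refine (rr_le hM1 x).trans (le_trans ?_ (le_rr hM1 y))
  have h1 : M ^ (κ x + 1) ≤ M ^ κ y := pow_le_pow_right₀ hM1 h
  rw [pow_succ] at h1
  have h2 : (0:ℝ) < M ^ κ x := by positivity
  have h3 : ((Fintype.card V : ℝ) + 2) * M ^ κ x ≤ M ^ κ x * M := by
    rw [mul_comm (M ^ κ x) M]
    refine mul_le_mul_of_nonneg_right ?_ h2.le
    rw [hM]; linarith
  have h4 : 0 < M ^ κ y := by positivity
  linarith

lemma Tree.sum_lt {M : ℝ} (hM : M = Fintype.card V + 3) (u : V) [DecidableEq V] :
    ∑ x ∈ univ.filter (fun x => κ x < κ u), rr G κ p M x < 2 * M ^ κ u := by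
  have hc : (0:ℝ) ≤ Fintype.card V := Nat.cast_nonneg _
  have hM1 : 1 ≤ M := by rw [hM]; linarith
  calc ∑ x ∈ univ.filter (fun x => κ x < κ u), rr G κ p M x
      ≤ ∑ x ∈ univ.filter (fun x => κ x < κ u), ((Fintype.card V : ℝ) + 2) * M ^ κ x :=
        sum_le_sum fun x _ => rr_le hM1 x
    _ = ((Fintype.card V : ℝ) + 2) * ∑ x ∈ univ.filter (fun x => κ x < κ u), M ^ κ x := by
        rw [mul_sum]
    _ ≤ ((Fintype.card V : ℝ) + 2) * ∑ k ∈ range (κ u), M ^ k := by
        refine mul_le_mul_of_nonneg_left ?_ (by linarith)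
        rw [← sum_image (g := κ) (f := fun k => M ^ k) (fun x _ y _ h => T.inj h)]
        refine sum_le_sum_of_subset_of_nonneg ?_ (fun _ _ _ => by positivity)
        intro k hk
        simp only [mem_image, mem_filter, mem_univ, true_and] at hk
        obtain ⟨x, hx, rfl⟩ := hk
        exact mem_range.mpr hx
    _ = (∑ k ∈ range (κ u), M ^ k) * (M - 1) := by rw [hM]; ring
    _ = M ^ κ u - 1 := geom_sum_mul M (κ u)
    _ < 2 * M ^ κ u := by
        have : 0 < M ^ κ u := by positivity
        linarith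

omit T in
lemma dd_symm (M : ℝ) (u v : V) : dd G κ ρ p M u v = dd G κ ρ p M v u := by
  unfold dd
  congr 1
  · exact sum_congr rfl fun x _ => by rw [abs_sub_comm]
  · exact sum_congr rfl fun x _ => sum_congr rfl fun w _ => by rw [abs_sub_comm]

omit T in
lemma dd_self (M : ℝ) (u : V) : dd G κ ρ p M u u = 0 := by
  unfold dd; simp

omit T in
/-- lower bound by the radius of a separated vertex -/
lemma lower_one {M : ℝ} (hM : 1 ≤ M) (u v x : V) (h : |a ρ p u x - a ρ p v x| = 1) :
    rr G κ p M x ≤ dd G κ ρ p M u v := by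
  have := lower (G := G) (κ := κ) (ρ := ρ) (p := p) hM u v {x} (by simp) (by
    intro y hy w hw
    rw [mem_singleton] at hy hw
    subst hy hw
    exact W_self _)
  simpa [h] using this

omit T in
lemma lower_two {M : ℝ} (hM : 1 ≤ M) (u v x y : V) (hxy : x ≠ y)
    (hx : |a ρ p u x - a ρ p v x| = 1) (hy : |a ρ p u y - a ρ p v y| = 1)
    (h1 : W G κ p M x y = 0) (h2 : W G κ p M y x = 0) :
    rr G κ p M x + rr G κ p M y ≤ dd G κ ρ p M u v := by
  classical
  have := lower (G := G) (κ := κ) (ρ := ρ) (p := p) hM u v {x, y}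
    (by rw [card_pair hxy]) (by
    intro z hz w hw
    rw [mem_insert, mem_singleton] at hz hw
    rcases hz with rfl | rfl <;> rcases hw with rfl | rfl
    · exact W_self _
    · exact h1
    · exact h2
    · exact W_self _)
  rw [sum_pair hxy, hx, hy] at this
  linarith

omit [Fintype V] in
lemma Tree.sep_of_lt {u v : V} (h : κ u < κ v) (hv : v ≠ ρ) :
    |a ρ p u v - a ρ p v v| = 1 := by
  rw [a_eq_one (anc_self hv), a_eq_zero (fun hc => absurd (T.anc_le hc) (not_le.mpr h))]
  norm_num

/-- any other point is at distance at least `rr v` from `v` -/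
lemma Tree.rr_le_dd {M : ℝ} (hM : M = Fintype.card V + 3) {v x : V} (hv : v ≠ ρ) (hx : x ≠ v) :
    rr G κ p M v ≤ dd G κ ρ p M v x := by
  have hM1 : 1 ≤ M := by rw [hM]; linarith [(Nat.cast_nonneg (Fintype.card V) : (0:ℝ) ≤ _)]
  by_cases h : anc ρ p x v
  · have hlt : κ v < κ x := lt_of_le_of_ne (T.anc_le h) (fun e => hx (T.inj e).symm)
    have hxρ : x ≠ ρ := by
      rintro rfl
      exact absurd (T.root v hv) (not_lt.mpr hlt.le)
    exact (rr_mono hM hlt).trans (lower_one hM1 v x x (T.sep_of_lt hlt hxρ))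
  · refine lower_one hM1 v x v ?_
    rw [a_eq_one (anc_self hv), a_eq_zero h]
    norm_num

omit T in
lemma dd_parent {M : ℝ} (hM : 1 ≤ M) (v : V) :
    dd G κ ρ p M v (p v) ≤ rr G κ p M v := by
  classical
  refine (upper hM v (p v)).trans ?_
  have hz : ∀ x, x ≠ v → |a ρ p v x - a ρ p (p v) x| = 0 := by
    intro x hx
    by_cases h : anc ρ p v x
    · rw [a_eq_one h, a_eq_one (anc_parent h hx)]; simp
    · rw [a_eq_zero h, a_eq_zero (fun hc => h (anc_of_parent hc))]; simp
  rw [sum_eq_single v]
  · have : |a ρ p v v - a ρ p (p v) v| ≤ 1 := by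
      rcases a_mem (ρ := ρ) (p := p) v v with h1 | h1 <;>
      rcases a_mem (ρ := ρ) (p := p) (p v) v with h2 | h2 <;> rw [h1, h2] <;> norm_num
    have h2 := rr_pos (G := G) (κ := κ) (p := p) hM v
    nlinarith
  · intro x _ hx
    rw [hz x hx, mul_zero]
  · intro h; exact absurd (mem_univ v) h

omit T in
lemma bddBelow_range (d : V → V → ℝ) (i : V) :
    BddBelow (Set.range fun j : {j : V // j ≠ i} => d i j) := (Set.finite_range _).bddBelow

omit [Fintype V] in
lemma Tree.exists_child {u v : V} (h : ∃ k : ℕ, p^[k] v = u) (huv : u ≠ v) :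
    ∃ z, z ≠ ρ ∧ p z = u ∧ ∃ k : ℕ, p^[k] v = z := by
  classical
  have hk := Nat.find_spec h
  have hmin := fun m => Nat.find_min h (m := m)
  obtain ⟨k, hk'⟩ : ∃ k, Nat.find h = k + 1 := by
    refine Nat.exists_eq_succ_of_ne_zero ?_
    intro h0
    rw [h0] at hk
    exact huv hk.symm
  rw [hk'] at hk hmin
  refine ⟨p^[k] v, ?_, ?_, k, rfl⟩
  · intro hz
    refine hmin k (Nat.lt_succ_self k) ?_
    rw [Function.iterate_succ_apply', hz, T.proot] at hk
    rw [hz, hk]
  · rw [← Function.iterate_succ_apply' p k v]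
    exact hk

omit [Fintype V] in
lemma Tree.root_anc (v : V) : ∃ k : ℕ, p^[k] v = ρ := by
  induction h : κ v using Nat.strong_induction_on generalizing v with
  | _ n ih =>
    subst h
    by_cases hv : v = ρ
    · exact ⟨0, hv⟩
    · obtain ⟨k, hk⟩ := ih _ (T.plt v hv) (p v) rfl
      exact ⟨k + 1, by rwa [Function.iterate_succ_apply]⟩

/-- the main inequality set -/
lemma Tree.main [Nontrivial V] {M : ℝ} (hM : M = Fintype.card V + 3) {u v : V}
    (huv : κ u < κ v) :
    (G.Adj u v → dd G κ ρ p M u v < radius (dd G κ ρ p M) u + radius (dd G κ ρ p M) v) ∧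
    (¬ G.Adj u v → radius (dd G κ ρ p M) u + radius (dd G κ ρ p M) v ≤ dd G κ ρ p M u v) := by
  classical
  have hM1 : 1 ≤ M := by rw [hM]; linarith [(Nat.cast_nonneg (Fintype.card V) : (0:ℝ) ≤ _)]
  have hne : ∀ i : V, Nonempty {j : V // j ≠ i} := fun i => by
    obtain ⟨j, hj⟩ := exists_ne i
    exact ⟨⟨j, hj⟩⟩
  have hvρ : v ≠ ρ := by
    rintro rfl
    by_cases hu : u = v
    · subst hu; exact absurd huv (lt_irrefl _)
    · exact absurd (T.root u hu) (not_lt.mpr huv.le)
  have huv' : u ≠ v := by rintro rfl; exact absurd huv (lt_irrefl _)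
  -- radius facts
  have hle : ∀ i j : V, j ≠ i → radius (dd G κ ρ p M) i ≤ dd G κ ρ p M i j := by
    intro i j hj
    exact ciInf_le (bddBelow_range (dd G κ ρ p M) i) ⟨j, hj⟩
  have hrle : ∀ i, i ≠ ρ → radius (dd G κ ρ p M) i ≤ rr G κ p M i := by
    intro i hi
    refine (hle i (p i) ?_).trans (dd_parent hM1 i)
    intro hc
    have := T.plt i hi
    rw [hc] at this
    exact absurd this (lt_irrefl _)
  have hler : ∀ i, i ≠ ρ → rr G κ p M i ≤ radius (dd G κ ρ p M) i := by
    intro i hi
    have := hne i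
    exact le_ciInf fun j => T.rr_le_dd hM hi j.2
  have hrpos : 0 < radius (dd G κ ρ p M) ρ := by
    have := hne ρ
    have : (2:ℝ) ≤ radius (dd G κ ρ p M) ρ := by
      refine le_ciInf fun j => ?_
      rw [dd_symm]
      refine le_trans ?_ (T.rr_le_dd hM j.2 j.2.symm)
      refine le_trans ?_ (le_rr hM1 _)
      have : (1:ℝ) ≤ M ^ κ (j : V) := one_le_pow₀ hM1
      linarith
    linarith
  constructor
  · intro hadj
    by_cases hu : u = ρ
    · -- then `u` is the parent of `v`
      have hp : p v = u := by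
        by_contra hc
        have h1 := T.pmin v hvρ u hadj.symm
        rw [hu] at h1 hc
        exact absurd (T.root _ hc) (not_lt.mpr h1)
      have h1 := dd_parent (G := G) (κ := κ) (ρ := ρ) (p := p) hM1 v
      rw [hp, dd_symm] at h1
      have h2 := hler v hvρ
      rw [hu] at h1 ⊢
      linarith
    · by_cases hp : p v = u
      · have h1 := dd_parent (G := G) (κ := κ) (ρ := ρ) (p := p) hM1 v
        rw [hp, dd_symm] at h1
        have h2 := hler v hvρ
        have h3 := hler u hu
        have h4 := rr_pos (G := G) (κ := κ) (p := p) hM1 u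
        linarith
      · have hlt : κ (p v) < κ u := lt_of_le_of_ne (T.pmin v hvρ u hadj.symm)
          (fun e => hp (T.inj e))
        have hW : W G κ p M u v = M ^ κ u := by
          unfold W
          rw [if_pos ⟨hadj, hlt, huv⟩]
        have hnvu : ¬ anc ρ p v u := by
          intro hc
          have := T.anc_le (anc_parent hc huv')
          exact absurd hlt (not_lt.mpr this)
        have hnuv : ¬ anc ρ p u v := fun hc => absurd (T.anc_le hc) (not_le.mpr huv)
        have h1 := upper' (G := G) (κ := κ) (ρ := ρ) (p := p) hM1 u v huv'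
          (a_eq_one (anc_self hu)) (a_eq_zero hnuv) (a_eq_zero hnvu) (a_eq_one (anc_self hvρ))
        rw [hW] at h1
        have h2 : ∑ x, rr G κ p M x * |a ρ p u x - a ρ p v x| ≤
            rr G κ p M u + rr G κ p M v +
              ∑ x ∈ univ.filter (fun x => κ x < κ u), rr G κ p M x := by
          have hb : ∀ x, rr G κ p M x * |a ρ p u x - a ρ p v x| ≤
              (if x = u then rr G κ p M u else 0) + (if x = v then rr G κ p M v else 0) +
              (if κ x < κ u then rr G κ p M x else 0) := by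
            intro x
            have hr := rr_pos (G := G) (κ := κ) (p := p) hM1 x
            have hru := rr_pos (G := G) (κ := κ) (p := p) hM1 u
            have hrv := rr_pos (G := G) (κ := κ) (p := p) hM1 v
            have hD : |a ρ p u x - a ρ p v x| ≤ 1 := by
              rcases a_mem (ρ := ρ) (p := p) u x with h1 | h1 <;>
              rcases a_mem (ρ := ρ) (p := p) v x with h2 | h2 <;> rw [h1, h2] <;> norm_num
            have hle1 : rr G κ p M x * |a ρ p u x - a ρ p v x| ≤ rr G κ p M x := by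
              nlinarith
            by_cases hxu : x = u
            · subst hxu
              simp only [if_true, lt_irrefl, if_false, huv', add_zero]
              exact hle1
            · by_cases hxv : x = v
              · subst hxv
                simp only [hxu, if_true, if_false, zero_add]
                split_ifs <;> linarith
              · simp only [hxu, hxv, if_false, zero_add]
                by_cases hlt' : κ x < κ u
                · simp only [hlt', if_true]; exact hle1
                · simp only [hlt', if_false]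
                  have e1 : ¬ anc ρ p u x := by
                    intro hc
                    have h := T.anc_le hc
                    exact hlt' (lt_of_le_of_ne h (fun e => hxu (T.inj e)))
                  have e2 : ¬ anc ρ p v x := by
                    intro hc
                    have h := T.anc_le (anc_parent hc hxv)
                    exact hlt' (lt_of_le_of_lt h hlt)
                  rw [a_eq_zero e1, a_eq_zero e2]
                  simp
          refine (sum_le_sum fun x _ => hb x).trans ?_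
          rw [sum_add_distrib, sum_add_distrib]
          simp [sum_filter]
        have h3 := T.sum_lt hM u
        have h4 := hler u hu
        have h5 := hler v hvρ
        linarith
  · intro hnadj
    by_cases hanc : ∃ k : ℕ, p^[k] v = u
    · obtain ⟨z, hz1, hz2, hz3⟩ := T.exists_child hanc huv'
      have hzv : z ≠ v := by
        rintro rfl
        have := T.padj z hz1
        rw [hz2] at this
        exact hnadj this.symm
      have hancz : anc ρ p v z := ⟨hz1, hz3⟩
      have hκ : κ u < κ z := by rw [← hz2]; exact T.plt z hz1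
      have hnz : ¬ anc ρ p u z := fun hc => absurd (T.anc_le hc) (not_le.mpr hκ)
      have h1 : rr G κ p M z + rr G κ p M v ≤ dd G κ ρ p M u v := by
        refine lower_two hM1 u v z v hzv ?_ (T.sep_of_lt huv hvρ)
          (T.W_anc hancz (anc_self hvρ)) (T.W_anc (anc_self hvρ) hancz)
        rw [a_eq_zero hnz, a_eq_one hancz]
        norm_num
      have h2 : radius (dd G κ ρ p M) u ≤ rr G κ p M z := by
        refine (hle u z ?_).trans ?_
        · intro hc; rw [hc] at hκ; exact absurd hκ (lt_irrefl _)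
        · rw [dd_symm, ← hz2]
          exact dd_parent hM1 z
      have h3 := hrle v hvρ
      linarith
    · have huρ : u ≠ ρ := by
        rintro rfl
        exact hanc (T.root_anc v)
      have hnvu : ¬ anc ρ p v u := fun hc => hanc hc.2
      have h1 : rr G κ p M u + rr G κ p M v ≤ dd G κ ρ p M u v := by
        refine lower_two hM1 u v u v huv' ?_ (T.sep_of_lt huv hvρ)
          (W_not_adj hnadj) (W_not_adj (fun hc => hnadj hc.symm))
        rw [a_eq_one (anc_self huρ), a_eq_zero hnvu]
        norm_num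
      have h2 := hrle u huρ
      have h3 := hrle v hvρ
      linarith

end construction

/-- existence of a vertex order adapted to a spanning tree -/
lemma exists_tree {V : Type*} [Fintype V] (G : SimpleGraph V) (hG : G.Connected) :
    ∃ (κ : V → ℕ) (ρ : V) (p : V → V), Tree G κ ρ p := by
  classical
  obtain ⟨ρ⟩ := hG.nonempty
  set n := Fintype.card V with hn
  have hn0 : 0 < n := Fintype.card_pos_iff.mpr ⟨ρ⟩
  let e := Fintype.equivFin V
  let κ : V → ℕ := fun v => G.dist v ρ * n + (e v : ℕ)
  have hlt : ∀ v, (e v : ℕ) < n := fun v => (e v).2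
  have hinj : Function.Injective κ := by
    intro v w h
    have h1 : (κ v) % n = (e v : ℕ) := by
      simp only [κ, Nat.mul_add_mod_self_right, Nat.mod_eq_of_lt (hlt v)]
    have h2 : (κ w) % n = (e w : ℕ) := by
      simp only [κ, Nat.mul_add_mod_self_right, Nat.mod_eq_of_lt (hlt w)]
    have h3 : (e v : ℕ) = e w := by rw [← h1, ← h2, h]
    exact e.injective (Fin.ext h3)
  have hdist : ∀ v w, G.dist v ρ < G.dist w ρ → κ v < κ w := by
    intro v w h
    have h1 : (G.dist v ρ + 1) * n ≤ G.dist w ρ * n := Nat.mul_le_mul_right _ h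
    have := hlt v
    simp only [κ]
    nlinarith
  have hroot : ∀ v, v ≠ ρ → κ ρ < κ v := by
    intro v hv
    refine hdist _ _ ?_
    rw [SimpleGraph.dist_self]
    exact hG.pos_dist_of_ne hv
  have hnb : ∀ v, v ≠ ρ → ∃ u, G.Adj v u ∧ κ u < κ v := by
    intro v hv
    obtain ⟨w, hw⟩ := hG.exists_walk_length_eq_dist v ρ
    cases w with
    | nil => exact absurd rfl hv
    | cons h w' =>
      rename_i u
      refine ⟨u, h, hdist _ _ ?_⟩
      rw [← hw, SimpleGraph.Walk.length_cons]
      exact Nat.lt_succ_of_le (SimpleGraph.dist_le w')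
  have hmin : ∀ v, v ≠ ρ → ∃ u, G.Adj v u ∧ ∀ u', G.Adj v u' → κ u ≤ κ u' := by
    intro v hv
    obtain ⟨u0, hu0, _⟩ := hnb v hv
    have hne : (univ.filter (fun u => G.Adj v u)).Nonempty := ⟨u0, by simp [hu0]⟩
    obtain ⟨u, hu, hmin⟩ := exists_min_image _ κ hne
    refine ⟨u, by simpa using hu, fun u' hu' => hmin u' (by simp [hu'])⟩
  choose! q hq using hmin
  refine ⟨κ, ρ, fun v => if v = ρ then ρ else q v, hinj, hroot, by simp, ?_, ?_, ?_⟩
  · intro v hv
    simp only [hv, if_false]
    exact (hq v hv).1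
  · intro v hv
    simp only [hv, if_false]
    obtain ⟨u, hu1, hu2⟩ := hnb v hv
    exact lt_of_le_of_lt ((hq v hv).2 u hu1) hu2
  · intro v hv u hu
    simp only [hv, if_false]
    exact (hq v hv).2 u hu

/-- **Every finite connected graph with at least two vertices has an `ℓ_1`-embeddable
SIG-metric.** -/
theorem result {V : Type*} [Fintype V] [Nontrivial V] (G : SimpleGraph V) (hG : G.Connected) :
    ∃ d : V → V → ℝ, IsSIGMetric G d ∧ IsL1Embeddable d := by
  classical
  obtain ⟨κ, ρ, p, T⟩ := exists_tree G hG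
  set M : ℝ := Fintype.card V + 3 with hM
  have hM1 : 1 ≤ M := by rw [hM]; linarith [(Nat.cast_nonneg (Fintype.card V) : (0:ℝ) ≤ _)]
  -- coordinates
  let Y : V → (V ⊕ V × V) → ℝ := fun u i => match i with
    | Sum.inl x => 2 * M ^ κ x * a ρ p u x
    | Sum.inr (x, w) => W G κ p M x w * (a ρ p u x + a ρ p u w)
  have hY : ∀ u v, ∑ i, |Y u i - Y v i| = dd G κ ρ p M u v := by
    intro u v
    rw [Fintype.sum_sum_type, Fintype.sum_prod_type]
    unfold dd
    congr 1
    · refine sum_congr rfl fun x _ => ?_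
      simp only [Y]
      rw [← mul_sub, abs_mul, abs_of_nonneg]
      positivity
    · refine sum_congr rfl fun x _ => sum_congr rfl fun w _ => ?_
      simp only [Y]
      rw [← mul_sub, abs_mul, abs_of_nonneg (W_nonneg hM1 x w)]
  have hmet : IsMetricOn (dd G κ ρ p M) := by
    refine ⟨?_, ?_, dd_symm M, ?_⟩
    · intro i j
      rw [← hY]
      exact sum_nonneg fun _ _ => abs_nonneg _
    · intro i j
      constructor
      · intro h
        by_contra hij
        rcases lt_or_gt_of_ne (fun e => hij (T.inj e)) with hlt | hlt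
        · have hj : j ≠ ρ := by
            rintro rfl
            exact absurd (T.root i hij) (not_lt.mpr hlt.le)
          have h1 := T.rr_le_dd hM hj hij
          rw [dd_symm, h] at h1
          exact absurd (rr_pos hM1 j) (not_lt.mpr h1)
        · have hi : i ≠ ρ := by
            rintro rfl
            exact absurd (T.root j (Ne.symm hij)) (not_lt.mpr hlt.le)
          have h1 := T.rr_le_dd hM hi (Ne.symm hij)
          rw [h] at h1
          exact absurd (rr_pos hM1 i) (not_lt.mpr h1)
      · rintro rfl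
        exact dd_self M i
    · intro i j k
      rw [← hY, ← hY, ← hY, ← sum_add_distrib]
      exact sum_le_sum fun x _ => abs_sub_le _ _ _
  refine ⟨dd G κ ρ p M, ⟨hmet, ?_⟩, ?_⟩
  · intro i j hij
    rcases lt_or_gt_of_ne (fun e => hij (T.inj e)) with hlt | hlt
    · exact T.main hM hlt
    · have h := T.main hM hlt
      rw [dd_symm M i j, add_comm, G.adj_comm]
      exact h
  · let e := Fintype.equivFin (V ⊕ V × V)
    obtain ⟨v0, _⟩ := exists_pair_ne V
    refine ⟨Fintype.card (V ⊕ V × V), Fintype.card_pos_iff.mpr ⟨Sum.inl v0⟩,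
      fun u k => Y u (e.symm k), fun i j => ?_⟩
    rw [← hY]
    exact Fintype.sum_equiv e.symm _ _ (fun _ => rfl)

end Pool.Agent.Results.MP_d14146_co.SIGInL1
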